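import Pool.Agent.Helper54.FourCopiesCore

/-!
# A hyperelliptic Jacobian over `ℚ` containing four copies of an elliptic curve

`C : y² = 5 ((4 (x² + 1)⁴ - (x⁴ - 6 x² + 1)²)³ + 1125 (x² + 1)⁴ (x⁴ - 6 x² + 1)⁴)` (genus 11) and
`E : y² + x y = x³ - x² - 1077 x + 13877`.

For `K = ℚ(C)` the group `E(K) / E(ℚ)` is the group of morphisms `C → E` over `ℚ` modulo
constants; up to finite index it is `Hom_ℚ(J(C), E)`.  Hence `J(C)` contains `r` copies of the
elliptic curve `E` if and only if this group has rank at least `r`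
(`Pool.Agent.Helper54.FunField.ContainsCopies`).  We show that this is the case for `r = 4`.
-/

namespace Pool.Agent.Results.MP_aa83bd_nt.FourCopies

open Polynomial WeierstrassCurve WeierstrassCurve.Affine Pool.Agent.Helper54.InvDiff
  Pool.Agent.Helper54.FunField Pool.Agent.Helper54.FourCopies

noncomputable section

/-- The polynomial `f` of degree `24` with `C : y² = f(x)`. -/
def f : ℚ[X] :=
  5 * ((4 * (X ^ 2 + 1) ^ 4 - (X ^ 4 - 6 * X ^ 2 + 1) ^ 2) ^ 3
    + 1125 * (X ^ 2 + 1) ^ 4 * (X ^ 4 - 6 * X ^ 2 + 1) ^ 4)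

lemma natDegree_f : f.natDegree = 24 := by
  unfold f
  compute_degree!

/-- The identity expressing `f'` modulo `f`. -/
lemma derivative_f :
    derivative f * ((X ^ 2 + 1) ^ 2 * (X ^ 4 - 6 * X ^ 2 + 1)) =
      f * (2 * (4 * X * (X ^ 2 + 1)) * (X ^ 4 - 6 * X ^ 2 + 1)
        + 4 * (X ^ 2 + 1) ^ 2 * (4 * X ^ 3 - 12 * X)) +
      160 * (4 * (X ^ 2 + 1) ^ 4 - (X ^ 4 - 6 * X ^ 2 + 1) ^ 2) ^ 2 *
        (8 * (X ^ 2 + 1) ^ 4 + (X ^ 4 - 6 * X ^ 2 + 1) ^ 2) * (X * (1 + X ^ 2) * (1 - X ^ 2)) := by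
  unfold f
  simp only [derivative_mul, derivative_add, derivative_sub, derivative_pow, derivative_X,
    derivative_one, derivative_ofNat]
  simp only [Nat.cast_ofNat, map_ofNat]
  ring

lemma separable_f : f.Separable := by
  rw [Polynomial.separable_def, isCoprime_iff_aeval_ne_zero_of_isAlgClosed ℚ ℂ]
  intro a
  by_contra hcon
  push Not at hcon
  obtain ⟨h1, h2⟩ := hcon
  have h3 := congrArg (aeval a) derivative_f
  rw [map_mul, h2, zero_mul, map_add, map_mul, h1, zero_mul, zero_add] at h3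
  simp only [map_mul, map_add, map_sub, map_pow, aeval_X, map_one, map_ofNat] at h3
  have h1' : 5 * ((4 * (a ^ 2 + 1) ^ 4 - (a ^ 4 - 6 * a ^ 2 + 1) ^ 2) ^ 3
    + 1125 * (a ^ 2 + 1) ^ 4 * (a ^ 4 - 6 * a ^ 2 + 1) ^ 4) = 0 := by
    rw [← h1, f]
    simp only [map_mul, map_add, map_sub, map_pow, aeval_X, map_one, map_ofNat]
  have key : ∀ (h : a ^ 2 + 1 = 0), False := by
    intro h
    have ha : a ^ 2 = -1 := by linear_combination h
    have hV : a ^ 4 - 6 * a ^ 2 + 1 = 8 := by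
      have : a ^ 4 = (a ^ 2) ^ 2 := by ring
      rw [this, ha]; norm_num
    rw [hV, h] at h1'
    norm_num at h1'
  have h3' := h3.symm
  simp only [mul_eq_zero, pow_eq_zero_iff, ne_eq, OfNat.ofNat_ne_zero, not_false_eq_true,
    false_or] at h3'
  rcases h3' with (h | h) | (h | h) | h
  · rw [h] at h1'
    have h4 : (a ^ 2 + 1) = 0 ∨ (a ^ 4 - 6 * a ^ 2 + 1) = 0 := by
      simpa using h1'
    rcases h4 with h4 | h4
    · exact key h4
    · rw [h4] at h
      have : a ^ 2 + 1 = 0 := by simpa using h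
      exact key this
  · have hV : (a ^ 4 - 6 * a ^ 2 + 1) ^ 2 = -8 * (a ^ 2 + 1) ^ 4 := by linear_combination h
    have h5 : 5 * ((4 * (a ^ 2 + 1) ^ 4 - (a ^ 4 - 6 * a ^ 2 + 1) ^ 2) ^ 3
      + 1125 * (a ^ 2 + 1) ^ 4 * ((a ^ 4 - 6 * a ^ 2 + 1) ^ 2) ^ 2) = 0 := by
      rw [← h1']; ring
    rw [hV] at h5
    have h6 : (368640 : ℂ) * (a ^ 2 + 1) ^ 12 = 0 := by rw [← h5]; ring
    have : a ^ 2 + 1 = 0 := by simpa using h6
    exact key this
  · rw [h] at h1'
    norm_num at h1'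
  · apply key; rw [add_comm]; exact h
  · have ha : a ^ 2 = 1 := by linear_combination -h
    have h4 : a ^ 4 = (a ^ 2) ^ 2 := by ring
    rw [h4, ha] at h1'
    norm_num at h1'

lemma squarefree_f : Squarefree f := separable_f.squarefree

/-- The numerators of the four invariant differentials. -/
def G (i : Fin 4) : ℚ[X] :=
  ![10 * (2 * (1 + X ^ 2)) * (1 + 2 * X - X ^ 2) * (1 - 2 * X - X ^ 2) *
      ((1 + 2 * X - X ^ 2) ^ 2 - (1 - 2 * X - X ^ 2) ^ 2),
    10 * (2 * (1 + X ^ 2)) * (1 + 2 * X - X ^ 2) * (1 - 2 * X - X ^ 2) *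
      ((1 + 2 * X - X ^ 2) ^ 2 + 2 * (1 - 2 * X - X ^ 2) ^ 2),
    20 * (((1 + 2 * X - X ^ 2) ^ 2 + (1 - 2 * X - X ^ 2) ^ 2) ^ 2
      + ((1 + 2 * X - X ^ 2) ^ 2 + (1 - 2 * X - X ^ 2) ^ 2) *
        ((1 + 2 * X - X ^ 2) * (1 - 2 * X - X ^ 2))
      + ((1 + 2 * X - X ^ 2) * (1 - 2 * X - X ^ 2)) ^ 2) *
      ((1 + 2 * X - X ^ 2) - (1 - 2 * X - X ^ 2)),
    20 * (((1 + 2 * X - X ^ 2) ^ 2 + (1 - 2 * X - X ^ 2) ^ 2) ^ 2
      - ((1 + 2 * X - X ^ 2) ^ 2 + (1 - 2 * X - X ^ 2) ^ 2) *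
        ((1 + 2 * X - X ^ 2) * (1 - 2 * X - X ^ 2))
      + ((1 + 2 * X - X ^ 2) * (1 - 2 * X - X ^ 2)) ^ 2) *
      ((1 + 2 * X - X ^ 2) + (1 - 2 * X - X ^ 2))] i

lemma G_indep (n : Fin 4 → ℤ) (h : ∑ i, (n i : ℚ[X]) * G i = 0) : n = 0 := by
  have h0 := congrArg (Polynomial.eval 0) h
  have h1 := congrArg (Polynomial.eval 1) h
  have h2 := congrArg (Polynomial.eval 2) h
  have h3 := congrArg (Polynomial.eval (-2)) h
  simp only [Fin.sum_univ_four, G, Matrix.cons_val_zero, Matrix.cons_val_one, Matrix.cons_val,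
    eval_add, eval_mul, eval_sub, eval_pow, eval_X, eval_one, eval_ofNat, eval_intCast,
    eval_zero] at h0 h1 h2 h3
  norm_num at h0 h1 h2 h3
  have e0 : (n 0 : ℚ) = 0 := by linarith
  have e1 : (n 1 : ℚ) = 0 := by linarith
  have e2 : (n 2 : ℚ) = 0 := by linarith
  have e3 : (n 3 : ℚ) = 0 := by linarith
  funext i
  fin_cases i
  · exact_mod_cast e0
  · exact_mod_cast e1
  · exact_mod_cast e2
  · exact_mod_cast e3

open Classical in
theorem containsCopies_four : ContainsCopies E f 4 := by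
  intro K _ _ _ hK
  have hchar : CharZero K := algebraRat.charZero K
  have halg := isAlgebraic_of_isFunctionField hK
  obtain ⟨w, hw, -⟩ := hK
  obtain ⟨D, hD⟩ := exists_derivation K
  obtain ⟨c, hc⟩ : ∃ c : ℚ[X] →+* K,
      c = (algebraMap (RatFunc ℚ) K).comp (algebraMap ℚ[X] (RatFunc ℚ)) := ⟨_, rfl⟩
  have hcinj : Function.Injective c := by
    rw [hc, RingHom.coe_comp]
    exact (algebraMap (RatFunc ℚ) K).injective.comp (IsFractionRing.injective ℚ[X] (RatFunc ℚ))
  have hD' : ∀ p : ℚ[X], D (c p) = c (derivative p) := by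
    intro p; rw [hc]; exact hD p
  have hw' : w ^ 2 = c f := by rw [hc]; exact hw
  have hne : ∀ p : ℚ[X], ∀ a : ℚ, p.eval a ≠ 0 → c p ≠ 0 := by
    intro p a hp h0
    apply hp
    have : p = 0 := hcinj (by rw [h0, map_zero])
    rw [this, eval_zero]
  have data : Data D (c (2 * (1 + X ^ 2))) (c (1 + 2 * X - X ^ 2)) (c (1 - 2 * X - X ^ 2)) w := by
    refine ⟨?_, ?_, ?_, ?_, ?_, ?_, ?_, ?_⟩
    · simp only [map_mul, map_add, map_sub, map_pow, map_one, map_ofNat]; ring
    · rw [hw', f]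
      simp only [map_mul, map_add, map_sub, map_pow, map_one, map_ofNat]; ring
    · rw [hD', hD']
      simp only [derivative_mul, derivative_add, derivative_sub, derivative_pow, derivative_X,
        derivative_one, derivative_ofNat]
      simp only [map_mul, map_add, map_sub, map_pow, map_one, map_ofNat, map_zero, map_natCast]
      push_cast
      ring
    · exact hne _ 0 (by simp)
    · exact hne _ 0 (by simp)
    · intro h0
      rw [h0] at hw'
      have : f.eval 0 ≠ 0 := by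
        simp only [f, eval_mul, eval_add, eval_sub, eval_pow, eval_X, eval_one, eval_ofNat]
        norm_num
      exact hne f 0 this (by rw [← hw']; ring)
    · rw [← map_add]; exact hne _ 0 (by simp)
    · rw [← map_sub]; exact hne _ 1 (by simp)
  obtain ⟨P0, hP0⟩ := point_A1 data
  obtain ⟨P1, hP1⟩ := point_A2 data
  obtain ⟨P2, hP2⟩ := point_B data
  obtain ⟨P3, hP3⟩ := point_B' data
  refine ⟨![P0, P1, P2, P3], fun n hn => ?_⟩
  have hsum := sum_dl_eq_zero E D _ n hn
  rw [Fin.sum_univ_four] at hsum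
  simp only [Matrix.cons_val_zero, Matrix.cons_val_one, Matrix.cons_val] at hsum
  rw [hP0, hP1, hP2, hP3] at hsum
  apply G_indep
  apply hcinj
  rw [map_zero, map_sum, Fin.sum_univ_four]
  simp only [G, Matrix.cons_val_zero, Matrix.cons_val_one, Matrix.cons_val]
  simp only [map_mul, map_add, map_sub, map_pow, map_one, map_ofNat, map_intCast] at hsum ⊢
  have hw0 := data.w0
  field_simp at hsum
  linear_combination hsum

/-- A function field of `y² = f(x)` exists. -/
theorem exists_isFunctionField (f : ℚ[X]) :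
    ∃ (K : Type) (_ : Field K) (_ : Algebra (RatFunc ℚ) K), IsFunctionField f K := by
  obtain ⟨y, hy⟩ := IsAlgClosed.exists_pow_nat_eq
    (algebraMap (RatFunc ℚ) (AlgebraicClosure (RatFunc ℚ)) (algebraMap ℚ[X] (RatFunc ℚ) f))
    (n := 2) two_pos
  have hint : IsIntegral (RatFunc ℚ) y := Algebra.IsIntegral.isIntegral y
  refine ⟨IntermediateField.adjoin (RatFunc ℚ) {y}, inferInstance, inferInstance,
    IntermediateField.AdjoinSimple.gen (RatFunc ℚ) y, ?_, ?_⟩
  · apply Subtype.ext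
    simpa using hy
  · apply IntermediateField.adjoin_eq_top_of_algebra
    have := (IntermediateField.adjoin.powerBasis hint).adjoin_gen_eq_top
    simpa using this

/-- `E` is an elliptic curve, `f` is squarefree of degree `24` (so `C : y² = f(x)` is a
hyperelliptic curve of genus `11`), a function field `K` of `C` exists, and for every such `K`
the group `E(K) / E(ℚ)` has rank at least `4`; that is, the Jacobian of `C` contains four copies
of `E`. -/
theorem result : E.IsElliptic ∧ Squarefree f ∧ f.natDegree = 24 ∧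
    (∃ (K : Type) (_ : Field K) (_ : Algebra (RatFunc ℚ) K), IsFunctionField f K) ∧
    ContainsCopies E f 4 :=
  ⟨inferInstance, squarefree_f, natDegree_f, exists_isFunctionField f, containsCopies_four⟩

end

end Pool.Agent.Results.MP_aa83bd_nt.FourCopies
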